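import Pool.Agent.K4H28.FI.Link
import Pool.Agent.TH176.FB.J9

/-!
# The Fröberg–Iarrobino conjecture in three variables for almost all numbers of powers

For EVERY `d ≥ 3`, the triple `(3, r, d)` is expected for all `r ≥ 11` but at most `d - 3` numbers
`r`: for all other `r ≥ 11` the Hilbert series of the quotient of `ℂ[x, y, z]` by the `d`-th powers of
`r` generic linear forms is the truncated series `|(1 - t ^ d) ^ r / (1 - t) ^ 3|` in ALL degrees.
(The numbers `r` for which the `d`-th powers do not span all forms of degree `d` are those below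
`(d + 1) (d + 2) / 2`.) More generally, for all `q ≥ 2` it is expected for all `r ≥ q ^ 2 + 2` but at
most `2 (⌊(d - 1) / (q - 1)⌋ - 1)` numbers.

Proof. By the duality of Emsalem and Iarrobino the Hilbert function of the quotient in degree
`k = m + d - 1` is the dimension of the space of the forms of degree `k` with `r` general points of
multiplicity `m` in the plane. If this system is special, then it is not empty, and then the same
systems with at most `r - 2` points have the virtual dimension (see `TwoLargest` of `MP_d3128a_ag`).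
So for each `k` the numbers `r` for which the system is special are at most two (and consecutive), and
`(r - 2) m (m + 1) ≤ (k + 1) (k + 2)`, which means `m ≤ (d - 1) / (q - 1)` if `r ≥ q ^ 2 + 2`.
-/

set_option autoImplicit false

namespace Pool.Agent.Results.MP_9e2f2c_ag.AlmostAllPowers

open MvPolynomial

/-- The Hilbert function of the quotient of `ℂ[x_1, …, x_n]` by the ideal generated by the `d`-th
powers of the linear forms `∑ i, a (s, i) * x_i`, in degree `k`. -/
noncomputable def hilb {n r : ℕ} (d : ℕ) (a : Fin r × Fin n → ℂ) (k : ℕ) : ℤ :=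
  (Module.finrank ℂ (MvPolynomial.homogeneousSubmodule (Fin n) ℂ k) : ℤ) -
    (Module.finrank ℂ
      ↥(Submodule.restrictScalars ℂ
          (Ideal.span (Set.range fun s : Fin r =>
            (∑ i : Fin n, C (a (s, i)) * X i : MvPolynomial (Fin n) ℂ) ^ d)) ⊓
        MvPolynomial.homogeneousSubmodule (Fin n) ℂ k) : ℤ)

/-- The coefficient of `t ^ k` in `(1 - t) ^ (-n) * (1 - t ^ d) ^ r`. -/
noncomputable def co (n r d k : ℕ) : ℤ :=
  PowerSeries.coeff k
    ((PowerSeries.mk fun _ => (1 : ℤ)) ^ n * (1 - PowerSeries.X ^ d) ^ r)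

open Classical in
/-- The coefficient of `t ^ k` in the series `F_{n,r,d}`, that is, of `(1 - t ^ d) ^ r / (1 - t) ^ n`
truncated at its first coefficient that is not positive. -/
noncomputable def fro (n r d k : ℕ) : ℤ :=
  if ∀ j ≤ k, 0 < co n r d j then co n r d k else 0

/-- The triple `(n, r, d)` is expected. -/
def Expected (n r d : ℕ) : Prop :=
  ∃ P : MvPolynomial (Fin r × Fin n) ℂ, P ≠ 0 ∧
    ∀ a : Fin r × Fin n → ℂ, MvPolynomial.eval a P ≠ 0 → ∀ k : ℕ, hilb d a k = fro n r d k

theorem card_Mon3 (k : ℕ) : (Pool.Agent.TH206.Fro.Mon 3 k).card = (k + 2).choose 2 := by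
  rw [Pool.Agent.TH206.Fro.card_Mon]
  have h1 : 3 + k - 1 = k + 2 := by omega
  rw [h1, ← Nat.choose_symm_of_eq_add]
  omega

theorem co_eq {r d D : ℕ} (hd : 1 ≤ d) (hD : D ≤ 2 * d - 1) :
    co 3 r d D = (((D + 2).choose 2 : ℕ) : ℤ) - ((r * (D + 1 - d + 1).choose 2 : ℕ) : ℤ) := by
  have h5 : Pool.Agent.TH206.Fro.co 3 (fun _ : Fin r => d) D = co 3 r d D := by
    unfold Pool.Agent.TH206.Fro.co co
    rw [Finset.prod_const, Finset.card_univ, Fintype.card_fin]
  rw [← h5, Pool.Agent.TH206.Fro.co_thm 3 r (2 * d - 1) (fun _ => d) (by omega)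
    (fun _ => by omega) D hD, Finset.sum_const, Finset.card_univ, Fintype.card_fin, nsmul_eq_mul,
    card_Mon3 D]
  congr 1
  split_ifs with h
  · rw [card_Mon3 (D - d)]
    have e : D - d + 2 = D + 1 - d + 1 := by omega
    rw [e]
    push_cast
    ring
  · have e : D + 1 - d = 0 := by omega
    rw [e, zero_add, Nat.choose_succ_self]
    simp

open Pool.Agent.H938R2 Pool.Agent.K4H28.FI in
/-- If all the systems of degree `D` with `r` general points of multiplicity `D + 1 - d` are good,
then the triple is expected. -/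
theorem general {r d : ℕ} (hr : 4 ≤ r) (hd : 1 ≤ d) (h : ∀ D, Good (D + 1 - d) D r) :
    Expected 3 r d := by
  classical
  have hdim := fun D : ℕ => dimension (h D)
  choose P hP hP' using hdim
  refine ⟨∏ D ∈ Finset.range (2 * d), P D, Finset.prod_ne_zero_iff.2 fun D _ => hP D,
    fun a ha K => ?_⟩
  rw [map_prod, Finset.prod_ne_zero_iff] at ha
  set p : Fin r → Fin 3 → ℂ := fun s i => a (s, i) with hp
  set f : Fin r → MvPolynomial (Fin 3) ℂ :=
    fun s => Pool.Agent.TH176.FB.lf (p s) ^ d with hf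
  have hH : ∀ D, hilb d a D = Pool.Agent.TH206.Fro.hilb f D := fun D => rfl
  have hI : ∀ D ≤ 2 * d - 1, Module.finrank ℂ (Pool.Agent.TH176.FB.ik f D) +
      ((D + 2).choose 2 - r * (D + 1 - d + 1).choose 2) =
        (Pool.Agent.TH206.Fro.Mon 3 D).card := by
    intro D hD
    have h1 := Pool.Agent.TH176.FB.emsalem_iarrobino D (fun _ : Fin r => d) p
    have h2 := hP' D p (ha D (Finset.mem_range.2 (by omega)))
    have h3 : Module.finrank ℂ (Pool.Agent.TH176.FB.fat D (fun _ : Fin r => D + 1 - d) p) =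
        (D + 2).choose 2 - r * (D + 1 - d + 1).choose 2 := h2
    rw [h3, Pool.Agent.TH206.Fro.dim_thm 3 D ℂ] at h1
    exact h1
  have hcard := card_Mon3
  have hlast : co 3 r d (2 * d - 1) ≤ 0 := by
    rw [co_eq hd le_rfl, sub_nonpos]
    have e : 2 * d - 1 + 1 - d = d := by omega
    rw [e]
    have h1 := two_choose (2 * d)
    have h2 := two_choose d
    have e2 : 2 * d - 1 + 2 = 2 * d + 1 := by omega
    rw [e2]
    have h3 : 4 * (d + 1).choose 2 ≤ r * (d + 1).choose 2 := Nat.mul_le_mul_right _ hr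
    have h4 : (2 * d + 1).choose 2 ≤ 4 * (d + 1).choose 2 := by nlinarith
    exact_mod_cast h4.trans h3
  rw [hH]
  unfold fro
  split_ifs with hall
  · have hK : K ≤ 2 * d - 1 := by
      by_contra hcon
      push Not at hcon
      exact absurd (hall (2 * d - 1) hcon.le) (not_lt.2 hlast)
    have h1 := hI K hK
    have h2 := hall K le_rfl
    rw [co_eq hd hK] at h2 ⊢
    have h3 : Module.finrank ℂ (MvPolynomial.homogeneousSubmodule (Fin 3) ℂ K) =
      (Pool.Agent.TH206.Fro.Mon 3 K).card := Pool.Agent.TH206.Fro.dim_thm 3 K ℂ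
    have h4 : Pool.Agent.TH206.Fro.hilb f K =
        ((Pool.Agent.TH206.Fro.Mon 3 K).card : ℤ) -
          Module.finrank ℂ (Pool.Agent.TH176.FB.ik f K) := by
      rw [← h3]
      rfl
    rw [h4]
    omega
  · push Not at hall
    obtain ⟨j, hjK, hj⟩ := hall
    obtain ⟨i, hiK, hi, hi2⟩ : ∃ i ≤ K, i ≤ 2 * d - 1 ∧ co 3 r d i ≤ 0 := by
      rcases Nat.lt_or_ge j (2 * d) with h1 | h1
      · exact ⟨j, hjK, by omega, hj⟩
      · exact ⟨2 * d - 1, by omega, le_rfl, hlast⟩
    have h1 := hI i hi
    rw [co_eq hd hi] at hi2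
    refine Pool.Agent.TH176.FB.hilb_zero_of_top f K
      (Pool.Agent.TH176.FB.ik_top_mono f i K hiK
        (Pool.Agent.TH176.FB.ik_top_of_card f i ?_))
    omega

/-- **Main result.** For all `d ≥ 1` and `q ≥ 2`, the triple `(3, r, d)` is expected for all
`r ≥ q ^ 2 + 2` outside a set `S` of at most `2 (⌊(d - 1) / (q - 1)⌋ - 1)` numbers (`S` is empty if
`d ≤ 2 (q - 1)`). For `q = 3`: it is expected for all `r ≥ 11` but at most `d - 3` numbers. -/
theorem result (d q : ℕ) (hd : 1 ≤ d) (hq : 2 ≤ q) :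
    ∃ S : Finset ℕ, S.card ≤ 2 * ((d - 1) / (q - 1) - 1) ∧
      ∀ r : ℕ, q ^ 2 + 2 ≤ r → r ∉ S → Expected 3 r d := by
  classical
  choose s₀ hs₀ using Pool.Agent.K4H28.FI.two
  refine ⟨(Finset.Icc 2 ((d - 1) / (q - 1))).biUnion fun m =>
    {s₀ m (m + d - 1), s₀ m (m + d - 1) + 1}, ?_, fun r hr hS => ?_⟩
  · have h1 := Finset.card_biUnion_le_card_mul (Finset.Icc 2 ((d - 1) / (q - 1)))
      (fun m => ({s₀ m (m + d - 1), s₀ m (m + d - 1) + 1} : Finset ℕ)) 2
      (fun m _ => Finset.card_le_two)
    rw [Nat.card_Icc] at h1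
    omega
  · have hr4 : 4 ≤ r := by nlinarith
    refine general hr4 hd fun D => ?_
    by_contra hcon
    have hm : 1 ≤ D + 1 - d := by
      by_contra h0
      exact hcon (Pool.Agent.K4H28.FI.good_small (by omega) _ _ (by omega))
    have e : D + 1 - d + d - 1 = D := by omega
    have h1 := Pool.Agent.K4H28.FI.bound (m := D + 1 - d) (d := d) (s := r) hq hr
      (by rw [e]; exact hcon) hd
    have h2 := hs₀ (D + 1 - d) D r hcon
    apply hS
    rw [Finset.mem_biUnion]
    refine ⟨D + 1 - d, Finset.mem_Icc.2 h1, ?_⟩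
    rw [e, Finset.mem_insert, Finset.mem_singleton]
    exact h2

end Pool.Agent.Results.MP_9e2f2c_ag.AlmostAllPowers
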